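import Pool.Agent.Helper5.BD.Proof

/-!
# The conjecture D for cycles of dimension `r` reduces to varieties of dimension `2 r + 1`, and to
varieties over the algebraic closure of the prime field

Let `p` be a prime number or zero, and consider `ℓ`-adic cohomology (`ℓ ≠ p`) on the smooth projective
varieties over all algebraically closed fields of characteristic `p`. Let `k₀` be an algebraic closure
of the field with `p` elements (or of the field of rational numbers).

**Theorem.** Let `r` be a natural number. The following are equivalent:
* homological and numerical equivalence coincide for the cycles of dimension `r` on **all** smooth
  projective varieties over all algebraically closed fields of characteristic `p`;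
* they coincide for the cycles of dimension `r` on the varieties of dimension **exactly** `2 r + 1`,
  over all algebraically closed fields of characteristic `p`;
* they coincide for the cycles of dimension `r` on all varieties over `k₀`.

For `r = 1` it is enough to consider the one-cycles on the **threefolds over `k₀`**. The
conjecture D for all cycles on all varieties over all algebraically closed fields of
characteristic `p` is equivalent to the conjecture D for the cycles of dimension `c` on the varieties of
dimension `2 c` over `k₀`, for all `c`.

So for instance the equality of homological and numerical equivalence for one-cycles in characteristic
`p` is a question on threefolds over the algebraic closure of the field with `p` elements, where all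
Tate classes are defined over finite fields, and all cohomology is explicit.

Note that the passage to a larger field is not a formality: if a cycle on `X` is numerically
equivalent to zero then this is not clear for its specialisations, since the special fibre can have
more cycles than `X`; in the same way a cycle on a hyperplane section `Y` of `X` can be numerically
nontrivial on `Y` although its image in `X` is numerically trivial.

**What is assumed.** The cohomology theory is the datum `T : Theory p`: a Weil cohomology for each
algebraically closed field `k` of characteristic `p`. The structure `KnownTheorems` lists the theorems
of the literature which are used. All of them are true for `ℓ`-adic cohomology and smooth projective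
varieties; their proofs or references are in the comments in `Pool.Agent.Helper5.BD.Defs`. None
of them is a form of the standard conjectures or of the Tate conjecture.

**Proof.**
1. *Smoothing.* By de Jong's theorem the cycle `z × point` on `X × ℙ^N`, for large `N`, is a
   combination of disjoint smooth subvarieties; `z` is numerically (homologically) trivial if and only
   if `z × point` is.
2. *Generic hypersurface sections.* Let `Z ⊆ X` be a smooth closed subscheme of dimension `r`,
   `2 r + 2 ≤ dim X`, and `Y` the generic member of the linear system of the hypersurface
   sections of large degree which contain `Z`, over an algebraic closure `L` of the function field `K` of
   the linear system. It is smooth. Each cycle of codimension `r` over `K` on it is rationally equivalent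
   to the restriction of a cycle on `X`. As the Galois group of `L / K` acts trivially on
   `H^{2r}(Y) = H^{2r}(X)` (weak Lefschetz theorem, `2 r < dim Y`), a multiple of each class of a cycle of
   codimension `r` on `Y` is the restriction of the class of a cycle on `X`. So a cycle with support in
   `Z` which is numerically trivial on `X` is numerically trivial on `Y`, whose dimension is smaller.
3. *The prime field.* Let `𝒳 → B` be a smooth projective model over `k₀` of a variety `X` over the function
   field of `B`, with a cycle `z` of dimension `r`, `S` a closed fibre, and `M` a smooth projective variety
   with a generically finite morphism onto a compactification of `𝒳`. If `z` is numerically trivial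
   then the direct image `ζ` on `M` of the specialisation of `z` to `S` is numerically trivial, as only
   cycles which come from the generic fibre are restricted to `S`. So `ζ` is homologically trivial, and
   hence the class of `z` in `H(S)` is orthogonal to all restrictions of classes on `M`, which are all
   the classes invariant under the fundamental group of `B`, by the theorem on global invariant
   cycles. The class of `z` is itself invariant; as the representation is semisimple (Deligne), it is
   zero.
4. For `r = 1` one can use closed hypersurface sections of dimension at least three and the theorem
   of Grothendieck and Lefschetz on Picard groups.
-/

set_option autoImplicit false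

universe v

namespace Pool.Agent.Results.MP_f569db_ag.BoundedDimension

open Pool.Agent.Helper5.BD

/-- **Reduction of the conjecture D for `r`-dimensional cycles to dimension `2 r + 1`, and to the
closure of the prime field.** -/
theorem result {p : ℕ} (k₀ : ClosedField p) (hk₀ : IsPrimeClosure k₀) (T : Theory.{v} p)
    (F : KnownTheorems T k₀) :
    (∀ r : ℕ, List.TFAE
      [∀ (k : ClosedField p) (X : T.Var k), r ≤ dim X → DDim X r,
        ∀ (k : ClosedField p) (X : T.Var k), dim X = 2 * r + 1 → DDim X r,
        ∀ X : T.Var k₀, r ≤ dim X → DDim X r]) ∧
    ((∀ (k : ClosedField p) (X : T.Var k), 1 ≤ dim X → DDim X 1) ↔
      ∀ X : T.Var k₀, dim X = 3 → DDim X 1) ∧
    ((∀ (k : ClosedField p) (X : T.Var k) (c : ℕ), c ≤ dim X → DCodim X c) ↔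
      ∀ (c : ℕ) (X : T.Var k₀), dim X = 2 * c → DCodim X c) := by
  refine ⟨fun r => ?_, ⟨fun h X hX => h k₀ X (by omega), fun h => ?_⟩, full_iff F hk₀⟩
  · tfae_have 1 → 2 := fun h k X hX => h k X (by omega)
    tfae_have 2 → 1 := fun h k X hX => all_of_bounded F h k X hX
    tfae_have 1 → 3 := fun h X hX => h k₀ X hX
    tfae_have 3 → 1 := fun h k X hX => all_of_prime F hk₀ h k X hX
    tfae_finish
  · exact all_of_prime F hk₀ fun X hX => curves_of_threefolds F k₀ h X hX

end Pool.Agent.Results.MP_f569db_ag.BoundedDimension
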