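import Pool.Agent.Helper13ER.Dens

/-!
# The conjecture D for products, and the rank of the exotic relations between Frobenius eigenvalues

Let `k` be an algebraic closure of the field with `p` elements, and `W ℓ`, `ℓ ≠ p`, the `ℓ`-adic
cohomology theories of the smooth projective varieties over `k` (`AdicSystem`). Let

* `X j` be finitely many varieties, each of which is an abelian variety (`IsAbelian`; only the
  theorems of Weil and Tate on `H^1` and the structure of the cohomology are used), or a variety
  which satisfies the conjectures B and D and for which the operators commuting with Frobenius on the
  parts of degree `i ≤ dim X` of the transcendental cohomology are algebraic (`IsFullFor`), for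
  example **any surface such that Frobenius has simple spectrum on the transcendental part of its
  second cohomology** (the conjectures B and D are known for surfaces, and the condition in degree
  one is the theorem of Tate), or a K3 surface which satisfies the Tate conjecture for its square;
* `Y i` be finitely many **arbitrary** varieties.

Let `P j i` and `Q i b` be the polynomials of Frobenius (with rational coefficients independent of
`ℓ`, by Deligne): `P j i` on the transcendental cohomology of degree `i` of `X j` (squarefree; for an
abelian variety only `i = 1` and `H^1` occurs), and `Q i b` on `H^b(Y i)`. An *exotic relation* is a
multiplicative relation up to roots of unity between the roots of these polynomials, with integral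
exponents `r` and `r (conj z) = - r z`. Let `ρ` be the rank of the restrictions to the roots of
the `P j i` of the exotic relations (`exoticRank`); so `ρ` is at most the number of pairs of complex
conjugate non-real roots of the `P j i`, and it is zero if no exotic relation involves the `X j`.

**Theorem.** For all primes `ℓ` in a set of lower density at least `2 ^ (-ρ)`:

  if homological and numerical equivalence coincide, for `ℓ`-adic cohomology, for all products of the
  `Y i`, then they coincide for all varieties dominated by products of the `X j` and `Y i`, and the
  Lefschetz standard conjecture B holds for all these varieties.

If `ρ = 0` this is true for **all** `ℓ`.

For a single abelian variety `X`, without varieties `Y`, this is a quantitative form of a theorem of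
Clozel (a set of primes of positive density). New is that arbitrary varieties `Y` are allowed as
factors, that the `X j` need not be abelian varieties, that the density is governed by the
exotic relations, and that all dominated varieties are included.

The proof. Over an algebraic closure `L` of the field of coefficients `K = ℚ_ℓ` the cohomology of a
product is a sum of tensor products of eigenspaces of the `X j`, of algebraic parts, and of
generalised eigenspaces of the `Y i`. A class of a cycle can be non-zero on such a product only if
the product of the eigenvalues is a power of `p` up to a root of unity. If the relation is balanced
over `K`, that is, if the conjugacy classes over `K` of the eigenvalues `a` of the `X j` are those of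
the `q / a`, then the norm (the tensor product of the conjugates under the Galois group of `L` over
`K`) of the product of the eigenspaces of the `X j` is self-dual, by means of algebraic
correspondences; so a numerically trivial class is a sum of products of a contraction with
numerically trivial classes on products of the `Y i`, which are zero. All relations are balanced over
`ℚ_ℓ` if the Frobenius element at `ℓ` of the splitting field has no invariants in the space of the
exotic relations. Since the complex conjugation acts on this space as `-1`, the proportion of the
elements of the Galois group without invariants is at least `2 ^ (-ρ)` (by an identity with the
exterior powers of the representation), and the theorem of Chebotarev applies.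
-/

set_option autoImplicit false

open Polynomial

universe u

namespace Pool.Agent.Results.MP_f569db_ag.ExoticRank

open Pool.Agent.H914 Pool.Agent.H914.VarClass Pool.Agent.Helper11K9.Dens Pool.Agent.Helper13ER

/-- **The conjecture D for products with arbitrary varieties, for a set of primes of density at least
`2 ^ (-ρ)`, where `ρ` is the rank of the exotic relations.** -/
theorem result {k : Type u} [Field k] {𝒱 : VarClass k} {ops : CycleOps 𝒱} {p : ℕ}
    (S : AdicSystem ops p) {J I : Type} [Fintype J] [Fintype I] (X : J → 𝒱.Obj)
    (P : J → ℕ → ℚ[X]) (hX : ∀ j, S.IsAbelian (X j) (P j) ∨ S.IsFullFor (X j) (P j))
    (Y : I → 𝒱.Obj) (Q : I → ℕ → ℚ[X]) (hY : S.HasSpectra Y Q) :
    HasLowerDensity {ℓ | DReduces (S.W ℓ) (Set.range X) (Set.range Y)}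
        ((1 / 2 : ℝ) ^ S.exoticRank X P Y Q) ∧
      (S.exoticRank X P Y Q = 0 →
        ∀ ℓ, DReduces (S.W ℓ) (Set.range X) (Set.range Y)) :=
  main S hX hY

end Pool.Agent.Results.MP_f569db_ag.ExoticRank
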