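import Pool.Agent.Helper14G.Gap
import Pool.Agent.Y133.Half.DLaw

/-!
# The failure of the conjecture D is at most polynomial or at least exponential

Let `X` be a smooth projective variety over a field of any characteristic, `H` a Weil cohomology
theory with coefficient field `K`, and `b = dim H(X)` the total Betti number of `X`. Let

* `a n` be the dimension of the `K`-subspace of `H(X ^ (n + 1))` spanned by the classes of algebraic
  cycles of all codimensions,
* `r n` be the rank of the group of the algebraic cycles of all codimensions on `X ^ (n + 1)` modulo
  numerical equivalence.

A linear combination with coefficients in `K` of classes of algebraic cycles on `Y × Y` is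
numerically trivial if it is orthogonal to the classes of all algebraic cycles. It acts on `H(Y)`. The
conjecture D for `Y × Y` says that these combinations vanish; a weaker conjecture, which is known if
the projector of `H(Y)` to its even part is algebraic, says that they are nilpotent operators on
`H(Y)`.

**Theorem.** Exactly one of the following is true.

* All numerically trivial self-correspondences of all powers of `X` are nilpotent, and
  `a n ≤ b (n + 2) ^ (b ^ 2) r n` for all `n`.
* There is a numerically trivial self-correspondence of `X ^ (b ^ 4 + 1)` which is not nilpotent, and
  `b ^ n r n ≤ 4 b (n + 2) ^ (b ^ 2) (b - 1) ^ n a n` for all `n`: the quotient `a n / r n` grows at least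
  like `(b / (b - 1)) ^ n` divided by a polynomial.

So the order of growth of `a n / r n` is either at most polynomial, with an explicit degree, or at
least exponential, with an explicit rate, depending only on `b`; there is nothing in between. The
nilpotence conjecture for all powers of `X` follows from the nilpotence conjecture for one explicit
power, and also from one numerical inequality for one `n`.

**The proof.** Suppose that a numerically trivial self-correspondence of a power of `X` is not
nilpotent. It yields a numerically trivial idempotent, the ranks of the intersection forms on the
powers are at most `C ρ ^ n` for some `ρ < b` (`Tri`, `Expo`), and since the span of the permutations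
of the factors of `X ^ (n + 1)` has dimension at least `b ^ (2 n)` divided by a polynomial, some nonzero
combination `x` of permutations is numerically trivial, on some power `X ^ (m + 1)` without control
of `m`. Choose a basis of `H(X)` of homogeneous elements. It gives a basis of `H(X ^ (n + 1))` indexed by
the words of length `n + 1` in `b` letters, on which the permutations act up to sign. Let `J` be the
leading word (for the lexicographic order) of the value of `x` at some word. Replacing scattered
subwords `J` one sees that, modulo the ideal generated by `x`, the cohomology of `X ^ (n + 1)` is spanned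
by the words which do not contain `J` as a scattered subword; their number is at most
`(n + 2) ^ (m + 1) (b - 1) ^ (n + 1)` (`Avoid`, `Quo`). Since the ideal consists of numerically trivial
operators and is generated by an idempotent (Maschke), the rank of the intersection form on
`X ^ (n + 1) × X ^ (n + 1)` is at most the square of this number. The ranks are a logarithmically
convex sequence, so all their ratios are at most `(b - 1) ^ 2`, and the dependence on `m` disappears
(`Gap`).

In the Lean statement `𝒱` is a class of smooth projective varieties with products, `ops` the
operations on cycles, `pw X n` is the product of `n + 1` copies of `X`, `a n = algDim W (pw X n)`,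
`r n = cycRank ops (pw X n)`, `numTrivial W Y` is the set of the numerically trivial `K`-linear
combinations of classes of algebraic cycles on `Y`, and `W.corr c` is the operator given by `c`.

Author: helper14; the theory of systems of classes is in the starting library (`Y133/Half`).
-/

set_option autoImplicit false

open CategoryTheory AlgebraicGeometry

universe u v

namespace Pool.Agent.Results.MP_f569db_ag.NilpotenceGap

open Pool.Agent.H914 Pool.Agent.H914.VarClass Pool.Agent.H914.VarClass.Obj
  Pool.Agent.H914.WeilCohomology Pool.Agent.Helper14G
open Pool.Agent.Y133.Half

/-- Every numerically trivial self-correspondence of `Y` (a numerically trivial `K`-linear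
combination of classes of algebraic cycles on `Y × Y`) is a nilpotent operator on `H(Y)`. -/
def NumNilpotent {k : Type u} [Field k] {𝒱 : VarClass k} {ops : CycleOps 𝒱}
    (W : WeilCohomology.{u, v} ops) (Y : 𝒱.Obj) : Prop :=
  ∀ c ∈ numTrivial W (Y.prod Y), IsNilpotent (W.corr c : Module.End W.K (W.H Y))

lemma numNilpotent_iff {k : Type u} [Field k] {𝒱 : VarClass k} {ops : CycleOps 𝒱}
    (W : WeilCohomology.{u, v} ops) (Y : 𝒱.Obj) :
    NumNilpotent W Y ↔ ∀ x ∈ (algSys W).NOp Y Y, IsNilpotent x := by
  constructor
  · intro h x hx
    obtain ⟨c, hc, rfl⟩ := Sys.mem_NOp.1 hx
    apply h
    rw [numTrivial_eq]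
    exact hc
  · intro h c hc
    rw [numTrivial_eq] at hc
    exact h _ (Sys.NOp.corr hc)

/-- **The gap.** -/
theorem result {k : Type u} [Field k] {𝒱 : VarClass k} {ops : CycleOps 𝒱}
    (W : WeilCohomology.{u, v} ops) (X : 𝒱.Obj) (b : ℕ) (hb : Module.finrank W.K (W.H X) = b) :
    ((∀ m : ℕ, NumNilpotent W (pw X m)) ∧
      ∀ n : ℕ, algDim W (pw X n) ≤ b * (n + 2) ^ (b ^ 2) * cycRank ops (pw X n)) ∨
    (¬ NumNilpotent W (pw X (b ^ 4)) ∧
      ∀ n : ℕ, b ^ n * cycRank ops (pw X n) ≤
        4 * b * (n + 2) ^ (b ^ 2) * (b - 1) ^ n * algDim W (pw X n)) := by
  subst hb
  have ha : ∀ n, (algSys W).a (pw X n) = cycRank ops (pw X n) := fun n => numDim_eq_cycRank W _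
  have hC : ∀ n, Module.finrank W.K ((algSys W).C (pw X n)) = algDim W (pw X n) := fun n => by
    change Module.finrank W.K (Pool.Agent.H281R3.HT.algSpan W (pw X n)) = _
    rw [← algDim_eq]
  rcases Sy.gap (algSys W) X with ⟨h1, h2⟩ | ⟨h1, h2⟩
  · refine Or.inl ⟨fun m => (numNilpotent_iff W _).2 (h1 m), fun n => ?_⟩
    rw [← ha, ← hC]
    exact h2 n
  · refine Or.inr ⟨fun h => ?_, fun n => ?_⟩
    · obtain ⟨x, hx, hn⟩ := h1
      exact hn ((numNilpotent_iff W _).1 h x hx)
    · rw [← ha, ← hC]
      exact h2 n

end Pool.Agent.Results.MP_f569db_ag.NilpotenceGap
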