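import Pool.Agent.Helper14G.SqMain
import Pool.Agent.Y133.Half.DLaw

/-!
# If the conjecture D fails, it fails by a factor of order at least `√(n / log n)`

Let `X` be a smooth projective variety over a field of any characteristic, `H` a Weil cohomology
theory with coefficient field `K`, and `b = dim H(X)` the total Betti number of `X`. For a variety `Y`
let

* `a(Y)` be the dimension of the `K`-subspace of `H(Y)` spanned by the classes of algebraic cycles
  of all codimensions,
* `r(Y)` be the rank of the group of the algebraic cycles of all codimensions on `Y` modulo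
  numerical equivalence.

The conjecture D for `Y` implies `a(Y) = r(Y)`.

**Theorem.** If the conjecture D fails for `X ^ (q + 1)`, then for ALL `n ≥ 0`

  `√((n + 1) / log (n + 2)) r(X ^ (n + 1)) ≤ C a(X ^ (n + 1))`,

and for ALL varieties `Z` and ALL `n ≥ 0`, with the same constant,

  `√((n + 1) / log (n + 2)) r(Z × Z × X ^ (n + 1)) ≤ C a(Z × Z × X ^ (n + 1))`,

where `C = 8 (b + 1) √(288 (q + 1) (b ^ 2 + 1) b ^ (2 q + 2) + 2)`.

So if D fails for one power of `X`, then the classes which are homologically nontrivial and
numerically trivial outnumber the other ones by a factor of order `√(n / log n)` on the `n`-th power of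
`X`, and on the product of it with the square of an arbitrary variety; and one inequality
`C a < √((n + 1) / log (n + 2)) r` for one `n` (and one `Z`) implies D for `X ^ (q + 1)`. No standard
conjecture is assumed, in particular no sign conjecture: the projector of `H(X)` to its even part
need not be algebraic.

Previously known: the zero-infinity law (the quotient `a / r` for the powers of `X` is one or tends to
infinity, without any rate, `Y133/Half/DLaw`), and, if the sign conjecture holds for `X`, logarithmic
growth (`R940/DFin`). If all numerically trivial correspondences between the powers of `X` are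
nilpotent, then `a(X ^ (n + 1)) ≤ b (n + 2) ^ (b ^ 2) r(X ^ (n + 1))`, see `NilpotenceGap`.

**The proof.** Let `B l = Z × X ^ (l + 1)`. The sequence `r(B l × B l)` is logarithmically convex, and if
`a ≤ l r` for a large `l` then it is at least `b ^ (2 l)` divided by a power of `l`; hence
`r(X ^ (2 j) × B l × B l) ≥ (1 - C j log (l) / l) b ^ (2 j) r(B l × B l)` (`Tower`).

Let `z` be a numerically trivial class on a power `Y` of `X` with `z ^ 2 = 0` and `z ≠ 0`, and `ζ` the sum
of its pull-backs to `P = Y ^ m`. The operator `ζ ^ s` on `H(P)` has at least half of the maximal rank if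
`s ≤ c √m`: the relative dimensions of the kernels of the powers of `ζ` satisfy the recursion of a
random walk on the half-line with a trap at zero (`Walk`, `Ker`).

The classes on `P × B l × B l` are operators from `H(P)` to `H(B l × B l)`. Let `V i` be the space of those
which factor through `ζ ^ i` on the right. Then `V (i + 1) ⊆ V i`, and the main point is that

  `dim V i - dim V (i + 1) ≥ (rank (ζ ^ i) / dim H(P) - C j log (l) / l) dim H(P) r(B l × B l)`:

up to numerically trivial operators the annihilator of `ζ ^ i` in the category of correspondences is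
generated by an idempotent `e` with `e ζ ^ i = 0`, and the operators `u (1 - e)` are detected by the
intersection form, on the part of `P × B l × B l` cut out by an idempotent of rank at least
`rank (ζ ^ i)` (`Ann`). Adding these inequalities for `i ≤ s` one gets
`a(P × B l × B l) ≥ (s / 4) dim H(P) r(B l × B l) ≥ (s / 4) r(P × B l × B l)` as long as `m ≤ c l / log l`.

In the Lean statement `𝒱` is a class of smooth projective varieties with products, `ops` the
operations on cycles, `pw X n` is the product of `n + 1` copies of `X`, `a = algDim W` and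
`r = cycRank ops`, and `HomEqNum W Y` is the conjecture D for `Y`.

Author: helper14; the theory of systems of classes and the zero-infinity law are in the starting
library (`Y133/Half`).
-/

set_option autoImplicit false

open CategoryTheory AlgebraicGeometry

universe u v

namespace Pool.Agent.Results.MP_f569db_ag.SquareRootGrowth

open Pool.Agent.H914 Pool.Agent.H914.VarClass Pool.Agent.H914.VarClass.Obj
  Pool.Agent.H914.WeilCohomology Pool.Agent.Helper14G
open Pool.Agent.Y133.Half

/-- **Square root growth of the failure of the conjecture D.** -/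
theorem result {k : Type u} [Field k] {𝒱 : VarClass k} {ops : CycleOps 𝒱}
    (W : WeilCohomology.{u, v} ops) (X : 𝒱.Obj) (b q : ℕ) (hb : Module.finrank W.K (W.H X) = b)
    (hD : ¬ HomEqNum W (pw X q)) :
    (∀ n : ℕ, √(((n : ℝ) + 1) / Real.log ((n : ℝ) + 2)) * cycRank ops (pw X n) ≤
      8 * (b + 1) * √(288 * (q + 1) * (b ^ 2 + 1) * (b : ℝ) ^ (2 * q + 2) + 2) *
        algDim W (pw X n)) ∧
    ∀ (Z : 𝒱.Obj) (n : ℕ), √(((n : ℝ) + 1) / Real.log ((n : ℝ) + 2)) *
        cycRank ops ((Z.prod Z).prod (pw X n)) ≤
      8 * (b + 1) * √(288 * (q + 1) * (b ^ 2 + 1) * (b : ℝ) ^ (2 * q + 2) + 2) *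
        algDim W ((Z.prod Z).prod (pw X n)) := by
  have hN : (algSys W).Num (pw X q) ≠ ⊥ := by
    intro h
    apply hD
    apply Pool.Agent.Y129.homEqNum_of_algSpan
    intro c hc hc'
    have h1 : c ∈ (algSys W).Num (pw X q) := mem_algNum.2 ⟨hc, hc'⟩
    rw [h, Submodule.mem_bot] at h1
    exact h1
  have hcc : (cc b q)⁻¹ =
      8 * (b + 1) * √(288 * (q + 1) * (b ^ 2 + 1) * (b : ℝ) ^ (2 * q + 2) + 2) := by
    have h1 : 2 * kk b q + 2 = 288 * (q + 1) * (b ^ 2 + 1) * (b : ℝ) ^ (2 * q + 2) + 2 := by
      rw [kk]; ring
    rw [cc, h1]
    have h2 : (0 : ℝ) < 288 * (q + 1) * (b ^ 2 + 1) * (b : ℝ) ^ (2 * q + 2) + 2 := by positivity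
    have h3 : 0 < √(288 * (q + 1) * (b ^ 2 + 1) * (b : ℝ) ^ (2 * q + 2) + 2) := Real.sqrt_pos.2 h2
    field_simp
    norm_num
  have hc0 := cc_pos b q
  have key : ∀ Y : 𝒱.Obj, ∀ n : ℕ,
      cc b q * rt n * (algSys W).a Y ≤ Module.finrank W.K ((algSys W).C Y) →
      √(((n : ℝ) + 1) / Real.log ((n : ℝ) + 2)) * cycRank ops Y ≤
      8 * (b + 1) * √(288 * (q + 1) * (b ^ 2 + 1) * (b : ℝ) ^ (2 * q + 2) + 2) *
        algDim W Y := by
    intro Y n h
    rw [numDim_eq_cycRank] at h
    change _ ≤ (Module.finrank W.K (Pool.Agent.H281R3.HT.algSpan W Y) : ℝ) at h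
    rw [← algDim_eq] at h
    rw [← hcc, inv_mul_eq_div, le_div_iff₀ hc0]
    calc √(((n : ℝ) + 1) / Real.log ((n : ℝ) + 2)) * cycRank ops Y * cc b q =
          cc b q * rt n * cycRank ops Y := by rw [rt]; ring
      _ ≤ _ := h
  subst hb
  exact ⟨fun n => key _ n (sq_law (algSys W) X hN n),
    fun Z n => key _ n (sq_law_Z (algSys W) X Z hN n)⟩

end Pool.Agent.Results.MP_f569db_ag.SquareRootGrowth
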